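import Pool.Agent.Work.MP_db9399_sx_helper83.UHC

/-! # MP_db9399 PHASE 2, final assembly: DENX (helper83) -/

set_option autoImplicit false

namespace Pool.Agent.Work.MP_db9399_sx.helper83

open Finset Classical
open Pool.Agent.Work.MP_db9399_all (nb)
open Pool.Agent.Work.MP_db9399_dn (IsMat Tot)
open Pool.Agent.Work.MP_db9399_bg (den cl HPre)
open Pool.Agent.Work.MP_db9399_lh (Lh ce su sp pt)
open Pool.Agent.Work.MP_db9399_ot.helper1 (Kp Lb kt)
open Pool.Agent.Work.MP_db9399_sl (InS Same Gout Gss Gin Gex Out Vert Spt Bip Nsc)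
open Pool.Agent.Work.MP_db9399_sw (shs sms wt wl od ac avl LabD)
open Pool.Agent.Work.MP_db9399_sx

universe u

theorem mem_cl {V : Type u} [Fintype V] {T : Type} {lab : V → T} {P : Finset T} {v : V} :
    v ∈ cl lab P ↔ lab v ∈ P := by
  simp [cl]

/-- density of the labels with a given pair of split labels (from helper94, OVS) -/
theorem den_sp {l m r K K1 S : ℕ} {X : Type} [Fintype X] [Nonempty X] (y1 y2 : Fin (K1 + 1)) :
    den (univ.filter (fun t : Lh l m r K K1 S × X => sp t.1 = y1 ∨ sp t.1 = y2)) ≤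
      2 / ((K1 : ℝ) + 1) := by
  -- the split label is equidistributed
  have h1 : ∀ y : Fin (K1 + 1), (univ.filter (fun t : Lh l m r K K1 S × X => sp t.1 = y)).card *
      (K1 + 1) = Fintype.card (Lh l m r K K1 S × X) := by
    intro y
    obtain ⟨σ, hσ⟩ : ∃ σ : Fin (K1 + 1) → Lh l m r K K1 S × X → Lh l m r K K1 S × X,
        σ = fun z t => (((t.1.1.1, t.1.1.2.1, t.1.1.2.2.1, t.1.1.2.2.2.1, t.1.1.2.2.2.2.1, z),
          t.1.2), t.2) := ⟨_, rfl⟩
    have h2 : ∀ z, (univ.filter (fun t : Lh l m r K K1 S × X => sp t.1 = z)).card =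
        (univ.filter (fun t : Lh l m r K K1 S × X => sp t.1 = y)).card := by
      intro z
      refine card_bij (fun t _ => σ y t) ?_ ?_ ?_
      · intro t _
        rw [mem_filter, hσ]
        exact ⟨mem_univ _, rfl⟩
      · rintro ⟨⟨⟨a1, a2, a3, a4, a5, a6⟩, b⟩, x⟩ ht ⟨⟨⟨a1', a2', a3', a4', a5', a6'⟩, b'⟩, x'⟩
          ht' h
        rw [mem_filter] at ht ht'
        have e1 : a6 = z := ht.2
        have e2 : a6' = z := ht'.2
        rw [hσ] at h
        simp only [Prod.mk.injEq] at h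
        obtain ⟨⟨⟨h1, h2, h3, h4, h5, _⟩, h6⟩, h7⟩ := h
        rw [h1, h2, h3, h4, h5, h6, h7, e1, e2]
      · rintro ⟨⟨⟨a1, a2, a3, a4, a5, a6⟩, b⟩, x⟩ ht
        rw [mem_filter] at ht
        have e1 : a6 = y := ht.2
        refine ⟨((⟨a1, a2, a3, a4, a5, z⟩, b), x), mem_filter.mpr ⟨mem_univ _, rfl⟩, ?_⟩
        rw [hσ, e1]
    have h3 := card_eq_sum_card_fiberwise (s := (univ : Finset (Lh l m r K K1 S × X)))
      (f := fun t => sp t.1) (t := univ) (fun _ _ => mem_coe.2 (mem_univ _))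
    rw [card_univ] at h3
    rw [h3, sum_congr rfl (fun z _ => h2 z), sum_const, card_univ, Fintype.card_fin, smul_eq_mul,
      mul_comm]
  have h4 : (univ.filter (fun t : Lh l m r K K1 S × X => sp t.1 = y1 ∨ sp t.1 = y2)).card ≤
      (univ.filter (fun t : Lh l m r K K1 S × X => sp t.1 = y1)).card +
      (univ.filter (fun t : Lh l m r K K1 S × X => sp t.1 = y2)).card := by
    refine le_trans (card_le_card ?_) (card_union_le _ _)
    intro t ht
    rw [mem_union, mem_filter, mem_filter]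
    rw [mem_filter] at ht
    exact ht.2.imp (fun h => ⟨mem_univ _, h⟩) (fun h => ⟨mem_univ _, h⟩)
  unfold den
  have h5 : (0 : ℝ) < Fintype.card (Lh l m r K K1 S × X) := by
    exact_mod_cast Fintype.card_pos
  rw [div_le_div_iff₀ h5 (by positivity)]
  have h6 := h1 y1
  have h7 := h1 y2
  have h8 : (univ.filter (fun t : Lh l m r K K1 S × X => sp t.1 = y1 ∨ sp t.1 = y2)).card *
      (K1 + 1) ≤ 2 * Fintype.card (Lh l m r K K1 S × X) := by nlinarith
  exact_mod_cast h8

/-- density of the labels with type `none`, `some j0` or `some i` -/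
theorem den_ty {M1 R0 : ℕ} (hR : 0 < R0) (j0 i : Fin R0) :
    den (univ.filter (fun t : Lb M1 R0 => t.2.2.map Prod.snd = none ∨
      t.2.2.map Prod.snd = some j0 ∨ t.2.2.map Prod.snd = some i)) ≤ 3 / (R0 : ℝ) := by
  obtain ⟨Q, hQ⟩ : ∃ Q : Finset (Option (Kp M1 × Fin R0)), Q = ({none} : Finset _) ∪
      ((univ : Finset (Kp M1)).image (fun c => some (c, j0)) ∪
        (univ : Finset (Kp M1)).image (fun c => some (c, i))) := ⟨_, rfl⟩
  have hQc : Q.card ≤ 3 * Fintype.card (Kp M1) := by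
    have h1 : Q.card ≤ 1 + (Fintype.card (Kp M1) + Fintype.card (Kp M1)) := by
      rw [hQ]
      refine le_trans (card_union_le _ _) (add_le_add ?_ (le_trans (card_union_le _ _)
        (add_le_add ?_ ?_)))
      · rw [card_singleton]
      · exact le_trans card_image_le (le_of_eq card_univ)
      · exact le_trans card_image_le (le_of_eq card_univ)
    have h2 : 0 < Fintype.card (Kp M1) := Fintype.card_pos
    omega
  have h1 : (univ.filter (fun t : Lb M1 R0 => t.2.2.map Prod.snd = none ∨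
      t.2.2.map Prod.snd = some j0 ∨ t.2.2.map Prod.snd = some i)).card ≤
      6 * Q.card := by
    have h2 : (univ.filter (fun t : Lb M1 R0 => t.2.2.map Prod.snd = none ∨
      t.2.2.map Prod.snd = some j0 ∨ t.2.2.map Prod.snd = some i)) ⊆
      (univ : Finset (Fin 3)) ×ˢ ((univ : Finset Bool) ×ˢ Q) := by
      rintro ⟨a, b, o⟩ ht
      rw [mem_filter] at ht
      rw [mem_product, mem_product]
      refine ⟨mem_univ _, mem_univ _, ?_⟩
      change o ∈ Q
      rw [hQ, mem_union, mem_union, mem_singleton, mem_image, mem_image]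
      have h3 : o.map Prod.snd = none ∨ o.map Prod.snd = some j0 ∨ o.map Prod.snd = some i := ht.2
      rcases o with _ | ⟨c, j⟩
      · exact Or.inl rfl
      · rcases h3 with h3 | h3 | h3
        · simp at h3
        · refine Or.inr (Or.inl ⟨c, mem_univ _, ?_⟩)
          have h4 : j = j0 := by simpa using h3
          rw [h4]
        · refine Or.inr (Or.inr ⟨c, mem_univ _, ?_⟩)
          have h4 : j = i := by simpa using h3
          rw [h4]
    refine le_trans (card_le_card h2) (le_of_eq ?_)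
    rw [card_product, card_product, card_univ, card_univ, Fintype.card_fin, Fintype.card_bool]
    ring
  have h2 : Fintype.card (Lb M1 R0) = 6 * (Fintype.card (Kp M1) * R0 + 1) := by
    rw [Fintype.card_prod, Fintype.card_prod, Fintype.card_option, Fintype.card_prod,
      Fintype.card_fin, Fintype.card_fin, Fintype.card_bool]
    ring
  unfold den
  rw [h2, div_le_div_iff₀ (by positivity) (by exact_mod_cast hR)]
  have h3 : (univ.filter (fun t : Lb M1 R0 => t.2.2.map Prod.snd = none ∨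
      t.2.2.map Prod.snd = some j0 ∨ t.2.2.map Prod.snd = some i)).card * R0 ≤
      3 * (6 * (Fintype.card (Kp M1) * R0 + 1)) := by
    calc _ ≤ 6 * (3 * Fintype.card (Kp M1)) * R0 :=
          Nat.mul_le_mul_right _ (h1.trans (Nat.mul_le_mul_left _ hQc))
      _ ≤ 3 * (6 * (Fintype.card (Kp M1) * R0 + 1)) := by nlinarith
  exact_mod_cast h3

/-- `log ^ 9 d + 2 ≤ c d` for large `d` -/
theorem log9 (c : ℝ) (hc : 0 < c) : ∃ d0 : ℕ, ∀ d : ℕ, d0 ≤ d →
    Real.log d ^ 9 + 2 ≤ c * d := by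
  have h1 := (Real.isLittleO_pow_log_id_atTop (n := 9)).bound (half_pos hc)
  have h2 := (tendsto_natCast_atTop_atTop (R := ℝ)).eventually h1
  obtain ⟨d1, hd1⟩ := Filter.eventually_atTop.mp h2
  obtain ⟨d2, hd2⟩ := exists_nat_gt (4 / c)
  refine ⟨max d1 d2, fun d hd => ?_⟩
  have h3 := hd1 d (le_trans (le_max_left _ _) hd)
  have h4 : 4 / c < (d : ℝ) := lt_of_lt_of_le hd2 (by exact_mod_cast le_trans (le_max_right _ _) hd)
  rw [div_lt_iff₀ hc] at h4
  rw [id, Real.norm_eq_abs, Real.norm_eq_abs, abs_of_nonneg (Nat.cast_nonneg d : (0 : ℝ) ≤ d)] at h3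
  have h5 := le_trans (le_abs_self _) h3
  linarith

theorem stmt_DENX : Stmt_DENX.{u} := by
  intro ε2 hε2
  refine ⟨⌈12 / ε2⌉₊ + 1, ⌈8 / ε2⌉₊, ε2 / 16, by positivity, ?_⟩
  intro M1 R0 l m r K K1 S hR0 hK1
  obtain ⟨d0, hd0⟩ := log9 (ε2 / 8) (by positivity)
  refine ⟨d0, ?_⟩
  intro V _ k θ θ' η εg G EH d Ys UH Hs Gd c0 tu j0 lb lab hd hG hGd hLb hLab y i s s' hy
  obtain ⟨N, hN⟩ : ∃ N, N = (nb G y).filter (fun v => InS (shs d Ys) v ∧ v ∈ Lts Ys Hs) :=
    ⟨_, rfl⟩
  rw [← hN]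
  obtain ⟨P1, hP1⟩ : ∃ P1 : Finset (Lb M1 R0), P1 = univ.filter (fun t : Lb M1 R0 =>
      t.2.2.map Prod.snd = none ∨ t.2.2.map Prod.snd = some j0 ∨
        t.2.2.map Prod.snd = some i) := ⟨_, rfl⟩
  obtain ⟨P2, hP2⟩ : ∃ P2 : Finset (Lh l m r K K1 S × Unit), P2 = univ.filter
      (fun t : Lh l m r K K1 S × Unit => sp t.1 = s ∨ sp t.1 = s') := ⟨_, rfl⟩
  obtain ⟨GD, hGD⟩ : ∃ GD, GD = Gdd G d Ys Hs := ⟨_, rfl⟩
  rw [← hGD] at hLb hLab
  have hNG : N ⊆ nb GD y := by
    intro v hv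
    rw [hN, mem_filter, nb, mem_filter] at hv
    rw [nb, mem_filter, hGD]
    exact ⟨mem_univ _, hv.1.2, Or.inl ⟨hy, hv.2.1, hv.2.2⟩⟩
  have hGc : ((nb GD y).card : ℝ) ≤ d := by
    have h1 : nb GD y ⊆ nb G y := by
      intro v hv
      rw [nb, mem_filter, hGD] at hv
      rw [nb, mem_filter]
      exact ⟨mem_univ _, hv.2.1⟩
    exact_mod_cast (card_le_card h1).trans (hG.deg y)
  have hR : 0 < R0 := by omega
  have hR1 : (0 : ℝ) < R0 := by exact_mod_cast hR
  have hε8 : 0 < ε2 / 8 := by positivity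
  -- the four parts
  have hsub : N.filter (fun v => (lb v).2.2.map Prod.snd = none ∨
      (lb v).2.2.map Prod.snd = some j0 ∨ (lb v).2.2.map Prod.snd = some i ∨
      sp (lab v).1 = s ∨ sp (lab v).1 = s' ∨ v ∈ UH ∪ Gd) ⊆
      (nb GD y ∩ cl lb P1) ∪ ((nb GD y ∩ cl lab P2) ∪
        ((nb G y).filter (fun w => w ∈ UH) ∪ (nb G y ∩ Gd))) := by
    intro v hv
    rw [mem_filter] at hv
    obtain ⟨hv1, hv2⟩ := hv
    have hv3 := hNG hv1
    have hv4 : v ∈ nb G y := by
      rw [hN, mem_filter] at hv1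
      exact hv1.1
    rw [mem_union, mem_union, mem_union, mem_inter, mem_inter, mem_inter, mem_filter, mem_cl,
      mem_cl, hP1, hP2, mem_filter, mem_filter]
    rcases hv2 with h | h | h | h | h | h
    · exact Or.inl ⟨hv3, mem_univ _, Or.inl h⟩
    · exact Or.inl ⟨hv3, mem_univ _, Or.inr (Or.inl h)⟩
    · exact Or.inl ⟨hv3, mem_univ _, Or.inr (Or.inr h)⟩
    · exact Or.inr (Or.inl ⟨hv3, mem_univ _, Or.inl h⟩)
    · exact Or.inr (Or.inl ⟨hv3, mem_univ _, Or.inr h⟩)
    · rw [mem_union] at h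
      rcases h with h | h
      · exact Or.inr (Or.inr (Or.inl ⟨hv4, h⟩))
      · exact Or.inr (Or.inr (Or.inr ⟨hv4, h⟩))
  have hc0 : (N.filter (fun v => (lb v).2.2.map Prod.snd = none ∨
      (lb v).2.2.map Prod.snd = some j0 ∨ (lb v).2.2.map Prod.snd = some i ∨
      sp (lab v).1 = s ∨ sp (lab v).1 = s' ∨ v ∈ UH ∪ Gd)).card ≤
      (nb GD y ∩ cl lb P1).card + ((nb GD y ∩ cl lab P2).card +
        (((nb G y).filter (fun w => w ∈ UH)).card + (nb G y ∩ Gd).card)) := by
    refine le_trans (card_le_card hsub) (le_trans (card_union_le _ _) (add_le_add le_rfl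
      (le_trans (card_union_le _ _) (add_le_add le_rfl (card_union_le _ _)))))
  have hc1 : ((N.filter (fun v => (lb v).2.2.map Prod.snd = none ∨
      (lb v).2.2.map Prod.snd = some j0 ∨ (lb v).2.2.map Prod.snd = some i ∨
      sp (lab v).1 = s ∨ sp (lab v).1 = s' ∨ v ∈ UH ∪ Gd)).card : ℝ) ≤
      ((nb GD y ∩ cl lb P1).card : ℝ) + (((nb GD y ∩ cl lab P2).card : ℝ) +
        ((((nb G y).filter (fun w => w ∈ UH)).card : ℝ) + ((nb G y ∩ Gd).card : ℝ))) := by
    exact_mod_cast hc0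
  have hd1 : (0 : ℝ) ≤ d := Nat.cast_nonneg d
  -- types
  have hp1 : ((nb GD y ∩ cl lb P1).card : ℝ) ≤ ε2 / 4 * d + ε2 / 16 * d := by
    have h1 := (abs_le.mp (hLb.deg y P1)).2
    have h2 : den P1 ≤ ε2 / 4 := by
      have h20 : den P1 ≤ 3 / (R0 : ℝ) := by rw [hP1]; exact den_ty hR j0 i
      refine le_trans h20 ?_
      rw [div_le_iff₀ hR1]
      have h3 : 12 / ε2 ≤ (R0 : ℝ) := by
        have h4 := Nat.le_ceil (12 / ε2)
        have h5 : ((⌈12 / ε2⌉₊ + 1 : ℕ) : ℝ) ≤ R0 := by exact_mod_cast hR0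
        push_cast at h5
        linarith
      rw [div_le_iff₀ hε2] at h3
      linarith
    have h3 : 0 ≤ den P1 := by unfold den; positivity
    have h4 : den P1 * ((nb GD y).card : ℝ) ≤ ε2 / 4 * d :=
      mul_le_mul h2 hGc (Nat.cast_nonneg _) (by positivity)
    linarith
  -- split labels
  have hp2 : ((nb GD y ∩ cl lab P2).card : ℝ) ≤ ε2 / 4 * d + ε2 / 16 * d := by
    have h1 := (abs_le.mp (hLab.deg y P2)).2
    have h2 : den P2 ≤ ε2 / 4 := by
      have h20 : den P2 ≤ 2 / ((K1 : ℝ) + 1) := by rw [hP2]; exact den_sp s s'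
      refine le_trans h20 ?_
      rw [div_le_iff₀ (by positivity)]
      have h3 : 8 / ε2 ≤ (K1 : ℝ) := by
        have h4 := Nat.le_ceil (8 / ε2)
        have h5 : ((⌈8 / ε2⌉₊ : ℕ) : ℝ) ≤ K1 := by exact_mod_cast hK1
        linarith
      rw [div_le_iff₀ hε2] at h3
      linarith
    have h3 : 0 ≤ den P2 := by unfold den; positivity
    have h4 : den P2 * ((nb GD y).card : ℝ) ≤ ε2 / 4 * d :=
      mul_le_mul h2 hGc (Nat.cast_nonneg _) (by positivity)
    linarith
  have hp3 : (((nb G y).filter (fun w => w ∈ UH)).card : ℝ) ≤ 2 := by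
    exact_mod_cast uh_two hG.pre y
  have hp4 := hGd.out y hy
  have hp5 := hd0 d hd
  have hp6 : 0 ≤ ε2 * d := by positivity
  linarith

end Pool.Agent.Work.MP_db9399_sx.helper83
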