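import Pool.Agent.Work.MP_db9399_sx.Pre

/-! # MP_db9399 PHASE 2, final assembly: UHC (helper83) -/

set_option autoImplicit false

namespace Pool.Agent.Work.MP_db9399_sx.helper83

open Finset Classical
open Pool.Agent.Work.MP_db9399_all (nb)
open Pool.Agent.Work.MP_db9399_dn (IsMat Tot)
open Pool.Agent.Work.MP_db9399_bg (den cl HPre)
open Pool.Agent.Work.MP_db9399_sw (shs sms wt wl od ac avl)
open Pool.Agent.Work.MP_db9399_sx

universe u

/-- every vertex has at most two neighbours in `UH` -/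
theorem uh_two {V : Type u} [Fintype V] {k : ℕ} {G EH : SimpleGraph V} {UH : Finset V}
    {c0 tu : V → Fin k} (h : HPre G UH c0 EH tu) (v : V) :
    ((nb G v).filter (fun w => w ∈ UH)).card ≤ 2 := by
  by_contra hc
  push Not at hc
  obtain ⟨u0, hu0⟩ : ((nb G v).filter (fun w => w ∈ UH)).Nonempty := card_pos.mp (by omega)
  have h1 : ((nb G v).filter (fun w => w ∈ UH)).erase u0 ⊆ nb EH u0 := by
    intro u hu
    rw [mem_erase, mem_filter, nb, mem_filter] at hu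
    rw [mem_filter, nb, mem_filter] at hu0
    rw [nb, mem_filter]
    refine ⟨mem_univ _, ?_⟩
    rcases h.far v u0 hu0.2 u hu.2.2 hu0.1.2 hu.2.1.2 with h2 | h2
    · exact absurd h2.symm hu.1
    · exact h2
  have h2 := card_le_card h1
  rw [card_erase_of_mem hu0] at h2
  have h3 := h.mat u0
  omega

theorem stmt_UHC : Stmt_UHC.{u} := by
  intro V _ k θ θ' η a ε G EH d Ys UH Hs c0 tu cc K0 hθ hd hε hG Y hY
  obtain ⟨F, hF⟩ : ∃ F, F = Fyd a ε G d Ys UH Hs c0 K0 cc Y := ⟨_, rfl⟩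
  rw [← hF]
  have hFm : ∀ b ∈ F, (1 - ε) * (Y.card : ℝ) ≤ ((ubl G UH c0 Y b \ Hs).card : ℝ) := by
    intro b hb
    rw [hF, Fyd, if_pos hY, mem_filter] at hb
    exact hb.2
  -- double counting
  have h1 := sum_card_bipartiteAbove_eq_sum_card_bipartiteBelow (s := F) (t := Y \ Hs)
    (fun (b : Fin k) (v : V) => v ∈ ubl G UH c0 Y b)
  have h2 : ∀ b, bipartiteAbove (fun (b : Fin k) (v : V) => v ∈ ubl G UH c0 Y b) (Y \ Hs) b =
      ubl G UH c0 Y b \ Hs := by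
    intro b
    ext v
    rw [bipartiteAbove, mem_filter, mem_sdiff, mem_sdiff]
    constructor
    · rintro ⟨⟨_, h3⟩, h4⟩
      exact ⟨h4, h3⟩
    · rintro ⟨h3, h4⟩
      refine ⟨⟨?_, h4⟩, h3⟩
      rw [ubl, mem_filter] at h3
      exact h3.1
  have h3 : ∀ v ∈ Y \ Hs, (bipartiteBelow (fun (b : Fin k) (v : V) => v ∈ ubl G UH c0 Y b) F
      v).card ≤ ((nb G v).filter (fun y => y ∉ Y ∧ y ∈ UH)).card := by
    intro v _
    refine le_trans (card_le_card (t := ((nb G v).filter (fun y => y ∉ Y ∧ y ∈ UH)).image c0)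
      ?_) card_image_le
    intro b hb
    rw [bipartiteBelow, mem_filter, ubl, mem_filter] at hb
    obtain ⟨_, _, w, hw1, hw2, hw3, hw4⟩ := hb
    rw [mem_image]
    refine ⟨w, ?_, hw4⟩
    rw [mem_filter, nb, mem_filter]
    exact ⟨⟨mem_univ _, hw3⟩, hw2, hw1⟩
  have h4 : ∑ b ∈ F, (ubl G UH c0 Y b \ Hs).card ≤
      ∑ v ∈ Y \ Hs, ((nb G v).filter (fun y => y ∉ Y ∧ y ∈ UH)).card := by
    rw [← sum_congr rfl (fun b _ => congrArg card (h2 b)), h1]
    exact sum_le_sum h3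
  have h5 : (F.card : ℝ) * (1 - ε) * Y.card ≤
      ((∑ v ∈ Y \ Hs, ((nb G v).filter (fun y => y ∉ Y ∧ y ∈ UH)).card : ℕ) : ℝ) := by
    have h6 : (F.card : ℝ) * ((1 - ε) * Y.card) ≤
        ∑ b ∈ F, ((ubl G UH c0 Y b \ Hs).card : ℝ) := by
      have h7 := card_nsmul_le_sum F (fun b => ((ubl G UH c0 Y b \ Hs).card : ℝ))
        ((1 - ε) * (Y.card : ℝ)) hFm
      rw [nsmul_eq_mul] at h7
      exact h7
    have h8 : ((∑ b ∈ F, (ubl G UH c0 Y b \ Hs).card : ℕ) : ℝ) ≤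
        ((∑ v ∈ Y \ Hs, ((nb G v).filter (fun y => y ∉ Y ∧ y ∈ UH)).card : ℕ) : ℝ) := by
      exact_mod_cast h4
    rw [Nat.cast_sum] at h8
    rw [mul_assoc]
    exact le_trans h6 h8
  refine ⟨h5, ?_⟩
  have h6 : ∑ v ∈ Y \ Hs, ((nb G v).filter (fun y => y ∉ Y ∧ y ∈ UH)).card ≤ 2 * Y.card := by
    have h7 : ∀ v ∈ Y \ Hs, ((nb G v).filter (fun y => y ∉ Y ∧ y ∈ UH)).card ≤ 2 := by
      intro v _
      refine le_trans (card_le_card ?_) (uh_two hG.pre v)
      intro y hy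
      rw [mem_filter] at hy ⊢
      exact ⟨hy.1, hy.2.2⟩
    have h8 := sum_le_card_nsmul (Y \ Hs) _ 2 h7
    have h9 : (Y \ Hs).card ≤ Y.card := card_le_card sdiff_subset
    rw [smul_eq_mul] at h8
    omega
  have h7 : ((∑ v ∈ Y \ Hs, ((nb G v).filter (fun y => y ∉ Y ∧ y ∈ UH)).card : ℕ) : ℝ) ≤
      2 * (Y.card : ℝ) := by exact_mod_cast h6
  have hYs : Y ∈ Ys := by
    rw [sms, mem_filter, shs, mem_filter] at hY
    exact hY.1.1
  have hd1 : (1 : ℝ) ≤ d := by exact_mod_cast hd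
  have h8 : 0 < (Y.card : ℝ) := by
    have h9 := hG.low Y hYs
    have h10 : (99 / 100 : ℝ) * d ≤ (1 - θ) * d := by
      apply mul_le_mul_of_nonneg_right _ (by linarith)
      linarith
    linarith
  have h9 : (F.card : ℝ) * (1 - ε) ≤ 2 := by
    have h10 : (F.card : ℝ) * (1 - ε) * Y.card ≤ 2 * (Y.card : ℝ) := le_trans h5 h7
    exact le_of_mul_le_mul_right h10 h8
  have h10 : (F.card : ℝ) * (9 / 10) ≤ (F.card : ℝ) * (1 - ε) := by
    apply mul_le_mul_of_nonneg_left _ (Nat.cast_nonneg _)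
    linarith
  have h11 : (F.card : ℝ) < 3 := by linarith
  have h12 : F.card < 3 := by exact_mod_cast h11
  omega

end Pool.Agent.Work.MP_db9399_sx.helper83
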